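import Pool.Agent.helper45.LOCO.Defs
import Pool.Agent.helper45.LOC.Basic

/-!
# Continuous images of the generic slalom: definitions
-/

set_option autoImplicit false

namespace Pool.Agent.helper56.CI

open Pool.Agent.helper45.LOC (Loc Hec IsSub Dominating)

/-- slaloms -/
def Slalom (A : ℕ → Finset ℕ) : Prop := ∀ n, (A n).card ≤ n

/-- `π` is continuous on the space of all slaloms -/
def Cont (π : (ℕ → Finset ℕ) → ℕ → ℕ) : Prop :=
  ∀ A, Slalom A → ∀ j, ∃ N, ∀ A', Slalom A' → (∀ n < N, A' n = A n) → π A' j = π A j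

/-- the stem `s|N` decides `π(φ)(j) = m` -/
def Dec (π : (ℕ → Finset ℕ) → ℕ → ℕ) (N : ℕ) (s : ℕ → Finset ℕ) (j m : ℕ) : Prop :=
  ∀ A, Slalom A → (∀ n < N, A n = s n) → π A j = m

/-- the Boolean value of `π(φ)(j) = m`, where `φ` is the generic slalom -/
def psi (π : (ℕ → Finset ℕ) → ℕ → ℕ) (j m : ℕ) : Set Loc :=
  {p | ∀ q ≤ p, ∃ r ≤ q, Dec π r.len r.s j m}

/-- the restriction `x|k` as a list, last value first -/
def pre (x : ℕ → ℕ) : ℕ → List ℕ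
  | 0 => []
  | k + 1 => x k :: pre x k

/-- the stem `s|N` decides that `u` is an initial segment of `π(φ)` -/
def Decides (π : (ℕ → Finset ℕ) → ℕ → ℕ) (N : ℕ) (s : ℕ → Finset ℕ) (u : List ℕ) : Prop :=
  ∀ A, Slalom A → (∀ n < N, A n = s n) → pre (π A) u.length = u

/-- the Boolean value of `u ⊆ π(φ)` -/
def val (π : (ℕ → Finset ℕ) → ℕ → ℕ) (u : List ℕ) : Set Loc :=
  {p | ∀ q ≤ p, ∃ r ≤ q, Decides π r.len r.s u}

/-- the code of a node -/
def code (u : List ℕ) : ℕ := Encodable.encode u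

/-- the real `π(φ)` dominates the functions of its own initial parts -/
def TreeDom (π : (ℕ → Finset ℕ) → ℕ → ℕ) (p0 : Loc) : Prop :=
  ∀ h : List ℕ → ℕ, ∀ p ≤ p0, ∃ q ≤ p, ∃ N, ∀ r ≤ q, ∀ (u : List ℕ) (x : ℕ), N ≤ u.length →
    Decides π r.len r.s (x :: u) → h u ≤ x

/-- the node `u` can be reached by a slalom which prolongs `A|L` and captures the reals of `F`
from `L` on -/
def Reach (π : (ℕ → Finset ℕ) → ℕ → ℕ) (L : ℕ) (A : ℕ → Finset ℕ) (F : Set (ℕ → ℕ))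
    (u : List ℕ) : Prop :=
  ∃ (N : ℕ) (B : ℕ → Finset ℕ), L ≤ N ∧ (∀ n < L, B n = A n) ∧
    (∀ n, L ≤ n → n < N → (B n).card ≤ n ∧ ∀ f ∈ F, f n ∈ B n) ∧ Decides π N B u

/-- every real of `F` agrees below `t` with a real of `F'` -/
def Sub (t : ℕ) (F F' : Set (ℕ → ℕ)) : Prop := ∀ f ∈ F, ∃ g ∈ F', ∀ n < t, f n = g n

/-- trees of choices -/
inductive Tr : Type
  | kill : Finset (ℕ → ℕ) → Tr
  | node : Finset (ℕ → ℕ) → ℕ → (ℕ → ℕ → Tr) → Tr

/-- the tree shows that the node `u` with the reals `F` at the time `t` is bad -/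
def Ok (π : (ℕ → Finset ℕ) → ℕ → ℕ) (L : ℕ) (A : ℕ → Finset ℕ) :
    Tr → ℕ → Set (ℕ → ℕ) → List ℕ → Prop
  | .kill F', t, F, u => 2 * F'.card ≤ u.length ∧ Sub t (F' : Set (ℕ → ℕ)) F ∧
      ¬ Reach π L A (F' : Set (ℕ → ℕ)) u
  | .node F' n c, t, F, u => 2 * F'.card ≤ u.length ∧ Sub t (F' : Set (ℕ → ℕ)) F ∧
      ∀ x ≥ n, ∀ t', Ok π L A (c x t') t' (F' : Set (ℕ → ℕ)) (x :: u)

/-- the node `u` with the reals `F` at the time `t` is good -/
def Good (π : (ℕ → Finset ℕ) → ℕ → ℕ) (L : ℕ) (A : ℕ → Finset ℕ) (t : ℕ) (F : Set (ℕ → ℕ))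
    (u : List ℕ) : Prop :=
  ∀ T, ¬ Ok π L A T t F u

end Pool.Agent.helper56.CI
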