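import Pool.Agent.helper45.LOCO.Basic
import Pool.Agent.helper56.CI.Defs

/-!
# Continuous images of the generic slalom: elementary facts
-/

set_option autoImplicit false

namespace Pool.Agent.helper56.CI

open Set
open Pool.Agent.helper45.LOC (Loc Hec IsSub Dominating Loc.refl Loc.trans)
open Pool.Agent.helper45.LOCO (cut cut_le)

variable {π : (ℕ → Finset ℕ) → ℕ → ℕ}

/-! ### Initial segments -/

theorem pre_length (x : ℕ → ℕ) (k : ℕ) : (pre x k).length = k := by
  induction k with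
  | zero => rfl
  | succ k ih =>
    show (x k :: pre x k).length = k + 1
    rw [List.length_cons, ih]

theorem pre_suf (x : ℕ → ℕ) {j k : ℕ} (h : j ≤ k) : pre x j <:+ pre x k := by
  induction k, h using Nat.le_induction with
  | base => exact List.suffix_rfl
  | succ k _ ih => exact ih.trans (List.suffix_cons _ _)

theorem pre_congr {x y : ℕ → ℕ} {k : ℕ} (h : ∀ i < k, x i = y i) : pre x k = pre y k := by
  induction k with
  | zero => rfl
  | succ k ih =>
    show x k :: pre x k = y k :: pre y k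
    rw [h k (Nat.lt_succ_self k), ih fun i hi => h i (Nat.lt_succ_of_lt hi)]

theorem pre_of_suf {x : ℕ → ℕ} {u v : List ℕ} (h : pre x v.length = v) (hs : u <:+ v) :
    pre x u.length = u := by
  have h1 : pre x u.length <:+ v := by
    conv_rhs => rw [← h]
    exact pre_suf x hs.length_le
  exact (List.suffix_of_suffix_length_le h1 hs (by rw [pre_length])).eq_of_length
    (by rw [pre_length])

theorem suf_of_pre {x : ℕ → ℕ} {u v : List ℕ} (hu : pre x u.length = u)
    (hv : pre x v.length = v) (h : u.length ≤ v.length) : u <:+ v := by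
  rw [← hu, ← hv]
  exact pre_suf x h

/-- a nonempty initial part ends with a value -/
theorem pre_val {x : ℕ → ℕ} {a : ℕ} {u : List ℕ} (h : pre x (a :: u).length = a :: u) :
    x u.length = a ∧ pre x u.length = u := by
  have h1 : x u.length :: pre x u.length = a :: u := h
  exact ⟨(List.cons.inj h1).1, (List.cons.inj h1).2⟩

/-! ### Slaloms which prolong a stem -/

/-- the slalom with the stem of `p` and with the values of the reals of `H` beyond -/
def fill (p : Loc) (H : Finset (ℕ → ℕ)) (n : ℕ) : Finset ℕ := by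
  classical
  exact if n < p.len then p.s n else H.image fun f => f n

theorem fill_lt {p : Loc} {H : Finset (ℕ → ℕ)} {n : ℕ} (h : n < p.len) :
    fill p H n = p.s n := by
  unfold fill
  rw [if_pos h]

theorem fill_slalom {p : Loc} {H : Finset (ℕ → ℕ)} (h : H.card ≤ p.len) :
    Slalom (fill p H) := by
  classical
  intro n
  unfold fill
  split_ifs with h1
  · exact p.card_s n h1
  · exact Finset.card_image_le.trans (h.trans (not_lt.1 h1))

/-- there is a slalom with the stem of `p` -/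
theorem exists_slalom (p : Loc) : ∃ A, Slalom A ∧ ∀ n < p.len, A n = p.s n :=
  ⟨fill p p.F, fill_slalom p.card_F, fun _ h => fill_lt h⟩

theorem Dec.mono {N N' : ℕ} {s s' : ℕ → Finset ℕ} {j m : ℕ} (h : Dec π N s j m) (hN : N ≤ N')
    (hs : ∀ n < N, s' n = s n) : Dec π N' s' j m :=
  fun A hA hAs => h A hA fun n hn => (hAs n (by omega)).trans (hs n hn)

theorem Decides.mono {N N' : ℕ} {s s' : ℕ → Finset ℕ} {u : List ℕ} (h : Decides π N s u)
    (hN : N ≤ N') (hs : ∀ n < N, s' n = s n) : Decides π N' s' u :=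
  fun A hA hAs => h A hA fun n hn => (hAs n (by omega)).trans (hs n hn)

theorem Decides.le {p q : Loc} {u : List ℕ} (h : Decides π p.len p.s u) (hq : q ≤ p) :
    Decides π q.len q.s u :=
  h.mono hq.1 hq.2.1

theorem Decides.suf {N : ℕ} {s : ℕ → Finset ℕ} {u v : List ℕ} (h : Decides π N s v)
    (hs : u <:+ v) : Decides π N s u :=
  fun A hA hAs => pre_of_suf (h A hA hAs) hs

theorem Decides.comp {p : Loc} {u v : List ℕ} (hu : Decides π p.len p.s u)
    (hv : Decides π p.len p.s v) (h : u.length ≤ v.length) : u <:+ v := by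
  obtain ⟨A, hA, hAs⟩ := exists_slalom p
  exact suf_of_pre (hu A hA hAs) (hv A hA hAs) h

/-- finitely many values are decided by a finite part -/
theorem cont_pre (hc : Cont π) {A : ℕ → Finset ℕ} (hA : Slalom A) (k : ℕ) : ∃ N, ∀ A', Slalom A' →
    (∀ n < N, A' n = A n) → pre (π A') k = pre (π A) k := by
  induction k with
  | zero => exact ⟨0, fun _ _ _ => rfl⟩
  | succ k ih =>
    obtain ⟨N, hN⟩ := ih
    obtain ⟨N', hN'⟩ := hc A hA k
    refine ⟨max N N', fun A' hA' h => ?_⟩
    show π A' k :: pre (π A') k = π A k :: pre (π A) k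
    rw [hN A' hA' fun n hn => h n (hn.trans_le (le_max_left _ _)),
      hN' A' hA' fun n hn => h n (hn.trans_le (le_max_right _ _))]

/-- lengthen a condition so that it decides a long initial part -/
theorem long (hc : Cont π) (p : Loc) (k : ℕ) : ∃ q ≤ p, q.F = p.F ∧ k ≤ q.len ∧ ∃ u : List ℕ,
    u.length = k ∧ Decides π q.len q.s u := by
  classical
  have hA := fill_slalom (p := p) (H := p.F) p.card_F
  obtain ⟨N, hN⟩ := cont_pre hc hA k
  obtain ⟨M, hM⟩ : ∃ M, M = max (max N k) p.len := ⟨_, rfl⟩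
  have h1 : p.len ≤ M := by rw [hM]; exact le_max_right _ _
  have h2 : N ≤ M := by rw [hM]; exact (le_max_left _ _).trans (le_max_left _ _)
  have h3 : k ≤ M := by rw [hM]; exact (le_max_right _ _).trans (le_max_left _ _)
  refine ⟨⟨M, fill p p.F, p.F, fun i _ => hA i, p.card_F.trans h1⟩,
    ⟨h1, fun i hi => fill_lt hi, Finset.Subset.refl _, fun f hf i a _ => ?_⟩, rfl, h3,
    pre (π (fill p p.F)) k, pre_length _ _, fun A hA' hAs => ?_⟩
  · show f i ∈ fill p p.F i
    unfold fill
    rw [if_neg (not_lt.2 a)]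
    exact Finset.mem_image_of_mem _ hf
  · rw [pre_length]
    exact hN A hA' fun n hn => hAs n (hn.trans_le h2)

/-! ### Bad nodes -/

theorem Sub.refl (t : ℕ) (F : Set (ℕ → ℕ)) : Sub t F F :=
  fun f hf => ⟨f, hf, fun _ _ => rfl⟩

theorem Sub.of_subset {t : ℕ} {F F' : Set (ℕ → ℕ)} (h : F ⊆ F') : Sub t F F' :=
  fun f hf => ⟨f, h hf, fun _ _ => rfl⟩

theorem Sub.trans {t : ℕ} {F F' F'' : Set (ℕ → ℕ)} (h : Sub t F F')
    (h' : Sub t F' F'') : Sub t F F'' := by
  intro f hf
  obtain ⟨g, hg, hfg⟩ := h f hf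
  obtain ⟨k, hk, hgk⟩ := h' g hg
  exact ⟨k, hk, fun n hn => (hfg n hn).trans (hgk n hn)⟩

theorem Sub.le {t t' : ℕ} {F F' : Set (ℕ → ℕ)} (h : Sub t' F F') (ht : t ≤ t') :
    Sub t F F' := by
  intro f hf
  obtain ⟨g, hg, hfg⟩ := h f hf
  exact ⟨g, hg, fun n hn => hfg n (hn.trans_le ht)⟩

theorem Ok.mono {L : ℕ} {A : ℕ → Finset ℕ} {T : Tr} {t t' : ℕ} {F F' : Set (ℕ → ℕ)}
    {u : List ℕ} (h : Ok π L A T t' F u) (ht : t ≤ t') (hF : Sub t F F') :
    Ok π L A T t F' u := by
  cases T with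
  | kill F1 => exact ⟨h.1, (h.2.1.le ht).trans hF, h.2.2⟩
  | node F1 n c => exact ⟨h.1, (h.2.1.le ht).trans hF, h.2.2⟩

/-- goodness is inherited by larger times and smaller families -/
theorem Good.mono {L : ℕ} {A : ℕ → Finset ℕ} {t t' : ℕ} {F F' : Set (ℕ → ℕ)} {u : List ℕ}
    (h : Good π L A t F' u) (ht : t ≤ t') (hF : Sub t F F') : Good π L A t' F u :=
  fun T hT => h T (hT.mono ht hF)

theorem Good.reach {L : ℕ} {A : ℕ → Finset ℕ} {t : ℕ} {F : Set (ℕ → ℕ)} {u : List ℕ}
    (h : Good π L A t F u) {F' : Finset (ℕ → ℕ)} (hc : 2 * F'.card ≤ u.length)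
    (hF : Sub t (F' : Set (ℕ → ℕ)) F) : Reach π L A (F' : Set (ℕ → ℕ)) u := by
  by_contra hcon
  exact h (.kill F') ⟨hc, hF, hcon⟩

/-- good nodes have many good successors -/
theorem Good.succ {L : ℕ} {A : ℕ → Finset ℕ} {t : ℕ} {F : Set (ℕ → ℕ)} {u : List ℕ}
    (h : Good π L A t F u) {F' : Finset (ℕ → ℕ)} (hc : 2 * F'.card ≤ u.length)
    (hF : Sub t (F' : Set (ℕ → ℕ)) F) (n : ℕ) :
    ∃ x ≥ n, ∃ t', Good π L A t' (F' : Set (ℕ → ℕ)) (x :: u) := by
  classical
  by_contra hcon
  push Not at hcon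
  have h1 : ∀ x t', ∃ T, n ≤ x → Ok π L A T t' (F' : Set (ℕ → ℕ)) (x :: u) := by
    intro x t'
    by_cases hx : n ≤ x
    · have h2 := hcon x hx t'
      unfold Good at h2
      push Not at h2
      obtain ⟨T, hT⟩ := h2
      exact ⟨T, fun _ => hT⟩
    · exact ⟨.kill ∅, fun h' => absurd h' hx⟩
  choose c hc' using h1
  exact h (.node F' n c) ⟨hc, hF, fun x hx t' => hc' x t' hx⟩

end Pool.Agent.helper56.CI
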