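import Pool.Agent.helper45.LOCO.Color

/-!
# Continuous images, module CI-Color: the colouring lemma for open membership

This is `LOCO.color` with a weaker hypothesis: instead of `a ∈ W G` depending only on `G` below `N a`
we only ask that `{G | a ∈ W G}` is open.

Paper proof (`Bd`, `Bd.mono`, `Bd.iUnion`, `cyl` from `LOCO.Color`; write `S[m,M)` for
`{G ∈ S | ∀ a, m ≤ a → a < M → a ∉ W G}`).
(1) If `¬ Bd W S` then for every `m0` there is `m > m0` such that for all `M`, `¬ Bd W S[m,M)`.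
Otherwise for all `m > m0` choose `M m` with `S[m, M m)` bounded; then `S` is contained in the union of
the countably many bounded sets `S[m, M m)`, `m > m0`, and of the set of the `G ∈ S` such that for all
`m > m0` some `a ∈ W G` has `m ≤ a < M m`, which is bounded by `M`; so `Bd W S`.
(2) If `¬ Bd W S` then for every `l` there is `G ∈ S` with `¬ Bd W (S ∩ cyl G l)` (countably many
cylinders).
(3) Call `S` closed if `∀ H, (∀ l, ∃ G ∈ S, ∀ k, ∀ n < l, G k n = H k n) → H ∈ S`.  `univ` is closed,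
`S[m,M)` is closed if `S` is (openness of membership), `S ∩ cyl G l` is closed if `S` is.
(4) Suppose `¬ Bd W univ`.  A state is `(S, G, l, m)` with `S` closed, `G ∈ S`, `S ⊆ cyl G l`, and
`¬ Bd W S[m,M)` for all `M`.  Given a state and `m'` there is a state `(S2, G2, l2, m2)` with
`S2 ⊆ S[m,m')`, `l < l2`, `m' < m2`: take `S1 = S[m,m')`, by (2) `G2 ∈ S1` with
`S2 = S1 ∩ cyl G2 (l+1)` not bounded, by (1) `m2 > m'`.  As in the proof of `LOCO.color` run two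
sequences of states alternately (`u j = (d j, d (j+1))`, `d (j+2) = step (d j) (m of d (j+1))`), so that
the sequence with even (odd) numbers has the gaps `[m (2i), m (2i+1))` (`[m (2i+1), m (2i+2))`).  The
limits `H0`, `H1` of the `G`s (`LOCO.limit`) belong to all the closed sets `S` of their sequence, so
`W H0` misses `[m (2i), m (2i+1))` and `W H1` misses `[m (2i+1), m (2i+2))` for all `i`; then
`W H0 ∩ W H1 ⊆ [0, m 0)` is finite, a contradiction.
-/

set_option autoImplicit false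

namespace Pool.Agent.helper56.CI

open Set Pool.Agent.helper45.LOCO

namespace ColorAux

variable {K : ℕ} (W : (Fin K → ℕ → ℕ) → Set ℕ)

/-- the members `G` of `S` for which `W G` misses `[m, M)` -/
def Miss (S : Set (Fin K → ℕ → ℕ)) (m M : ℕ) : Set (Fin K → ℕ → ℕ) :=
  {G | G ∈ S ∧ ∀ a, m ≤ a → a < M → a ∉ W G}

/-- closed sets of sequences -/
def IsCl (S : Set (Fin K → ℕ → ℕ)) : Prop :=
  ∀ H : Fin K → ℕ → ℕ, (∀ l, ∃ G ∈ S, ∀ k, ∀ n < l, G k n = H k n) → H ∈ S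

variable {W}

theorem exists_gap {S : Set (Fin K → ℕ → ℕ)} (hS : ¬ Bd W S) (m0 : ℕ) :
    ∃ m, m0 < m ∧ ∀ M, ¬ Bd W (Miss W S m M) := by
  classical
  by_contra hcon
  push Not at hcon
  have h1 : ∀ m, ∃ M, m0 < m → Bd W (Miss W S m M) := by
    intro m
    by_cases hm : m0 < m
    · obtain ⟨M, hM⟩ := hcon m hm
      exact ⟨M, fun _ => hM⟩
    · exact ⟨0, fun h => absurd h hm⟩
  choose M hM using h1
  let T : Option ℕ → Set (Fin K → ℕ → ℕ) := fun t =>
    match t with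
    | none => {G | G ∈ S ∧ ∀ m, m0 < m → ∃ a ∈ W G, m ≤ a ∧ a < M m}
    | some m => if m0 < m then Miss W S m (M m) else ∅
  have h2 : Bd W (⋃ t, T t) := by
    refine Bd.iUnion W fun t => ?_
    cases t with
    | none => exact ⟨M, fun G hG => ⟨m0 + 1, fun m hm => hG.2 m (by omega)⟩⟩
    | some m =>
      show Bd W (if m0 < m then Miss W S m (M m) else ∅)
      split_ifs with h
      · exact hM m h
      · exact ⟨fun m => m, fun G hG => absurd hG (notMem_empty G)⟩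
  refine hS (h2.mono W ?_)
  intro G hG
  by_cases h3 : ∀ m, m0 < m → ∃ a ∈ W G, m ≤ a ∧ a < M m
  · exact mem_iUnion.2 ⟨none, hG, h3⟩
  · push Not at h3
    obtain ⟨m, hm, h4⟩ := h3
    refine mem_iUnion.2 ⟨some m, ?_⟩
    show G ∈ (if m0 < m then Miss W S m (M m) else ∅)
    rw [if_pos hm]
    exact ⟨hG, fun a h5 h6 h7 => absurd h6 (not_lt.2 (h4 a h7 h5))⟩

theorem exists_cyl {S : Set (Fin K → ℕ → ℕ)} (hS : ¬ Bd W S) (l : ℕ) :
    ∃ G ∈ S, ¬ Bd W (S ∩ cyl G l) := by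
  classical
  by_contra hcon
  push Not at hcon
  let C : (Fin K → Fin l → ℕ) → Set (Fin K → ℕ → ℕ) :=
    fun t => {G | ∀ (k : Fin K) (i : Fin l), G k (i : ℕ) = t k i}
  let T : (Fin K → Fin l → ℕ) → Set (Fin K → ℕ → ℕ) :=
    fun t => if Bd W (S ∩ C t) then S ∩ C t else ∅
  have h1 : Bd W (⋃ t, T t) := by
    refine Bd.iUnion W fun t => ?_
    show Bd W (if Bd W (S ∩ C t) then S ∩ C t else ∅)
    split_ifs with h
    · exact h
    · exact ⟨fun m => m, fun G hG => absurd hG (notMem_empty G)⟩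
  refine hS (h1.mono W ?_)
  intro G hG
  have h2 : cyl G l = C (fun k i => G k i) := by
    ext G'
    constructor
    · intro h k i
      exact h k i i.2
    · intro h k n hn
      exact h k ⟨n, hn⟩
  refine mem_iUnion.2 ⟨fun k i => G k i, ?_⟩
  show G ∈ (if Bd W (S ∩ C (fun k i => G k i)) then S ∩ C (fun k i => G k i) else ∅)
  rw [if_pos (by rw [← h2]; exact hcon G hG)]
  exact ⟨hG, fun k i => rfl⟩

theorem IsCl.univ : IsCl (Set.univ : Set (Fin K → ℕ → ℕ)) := fun _ _ => mem_univ _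

theorem IsCl.miss (hN : ∀ a G, a ∈ W G → ∃ l, ∀ G', (∀ k, ∀ n < l, G' k n = G k n) → a ∈ W G')
    {S : Set (Fin K → ℕ → ℕ)} (hS : IsCl S) (m M : ℕ) : IsCl (Miss W S m M) := by
  intro H hH
  refine ⟨hS H fun l => ?_, fun a h1 h2 h3 => ?_⟩
  · obtain ⟨G, hG, h⟩ := hH l
    exact ⟨G, hG.1, h⟩
  · obtain ⟨l, hl⟩ := hN a H h3
    obtain ⟨G, hG, h⟩ := hH l
    exact hG.2 a h1 h2 (hl G h)

theorem IsCl.cyl {S : Set (Fin K → ℕ → ℕ)} (hS : IsCl S) (G : Fin K → ℕ → ℕ) (l : ℕ) :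
    IsCl (S ∩ Pool.Agent.helper45.LOCO.cyl G l) := by
  intro H hH
  refine ⟨hS H fun l' => ?_, fun k n hn => ?_⟩
  · obtain ⟨G', hG', h⟩ := hH l'
    exact ⟨G', hG'.1, h⟩
  · obtain ⟨G', hG', h⟩ := hH l
    rw [← h k n hn]
    exact hG'.2 k n hn

end ColorAux

open ColorAux

theorem color_open {K : ℕ} (W : (Fin K → ℕ → ℕ) → Set ℕ)
    (hN : ∀ a G, a ∈ W G → ∃ l, ∀ G', (∀ k, ∀ n < l, G' k n = G k n) → a ∈ W G')
    (hW : ∀ G G', (W G ∩ W G').Infinite) : Bd W univ := by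
  classical
  by_contra hcon
  let D := {D : Set (Fin K → ℕ → ℕ) × (Fin K → ℕ → ℕ) × ℕ × ℕ //
    IsCl D.1 ∧ D.2.1 ∈ D.1 ∧ D.1 ⊆ cyl D.2.1 D.2.2.1 ∧
      ∀ M, ¬ Bd W (Miss W D.1 D.2.2.2 M)}
  have step : ∀ (d : D) (m' : ℕ), ∃ d2 : D, d2.1.1 ⊆ Miss W d.1.1 d.1.2.2.2 m' ∧
      d.1.2.2.1 < d2.1.2.2.1 ∧ m' < d2.1.2.2.2 := by
    rintro ⟨⟨S, G, l, m⟩, hcl, hmem, hcyl, hgap⟩ m'
    obtain ⟨G2, hG2, hb⟩ := exists_cyl (hgap m') (l + 1)
    obtain ⟨m2, hm2, hgap2⟩ := exists_gap hb m'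
    exact ⟨⟨⟨Miss W S m m' ∩ cyl G2 (l + 1), G2, l + 1, m2⟩,
      (hcl.miss hN m m').cyl G2 (l + 1), ⟨hG2, fun k n _ => rfl⟩, inter_subset_right, hgap2⟩,
      inter_subset_left, Nat.lt_succ_self l, hm2⟩
  choose st h1 h2 h5 using step
  obtain ⟨m0, -, hm0⟩ := exists_gap hcon 0
  obtain ⟨G0, -, -⟩ := exists_cyl hcon 0
  let d0 : D := ⟨⟨univ, G0, 0, m0⟩, IsCl.univ, mem_univ _,
    fun _ _ k n hn => absurd hn (Nat.not_lt_zero n), hm0⟩
  let u : ℕ → D × D := fun j => Nat.rec (d0, d0) (fun _ w => (w.2, st w.1 w.2.1.2.2.2)) j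
  let d : ℕ → D := fun j => (u j).1
  have hd : ∀ j, d (j + 2) = st (d j) (d (j + 1)).1.2.2.2 := fun j => rfl
  let m : ℕ → ℕ := fun j => (d j).1.2.2.2
  have hm2 : ∀ j, m (j + 1) < m (j + 2) := by
    intro j
    show (d (j + 1)).1.2.2.2 < (d (j + 2)).1.2.2.2
    rw [hd]
    exact h5 _ _
  have hsub : ∀ ε i, (d (2 * (i + 1) + ε)).1.1 ⊆
      Miss W (d (2 * i + ε)).1.1 (m (2 * i + ε)) (m (2 * i + ε + 1)) := by
    intro ε i
    have e1 : 2 * (i + 1) + ε = (2 * i + ε) + 2 := by ring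
    rw [e1, hd]
    exact h1 _ _
  have hanti : ∀ ε i j, i ≤ j → (d (2 * j + ε)).1.1 ⊆ (d (2 * i + ε)).1.1 := by
    intro ε i j hij
    induction j, hij using Nat.le_induction with
    | base => exact subset_rfl
    | succ j _ ih => exact fun G hG => ih (hsub ε j hG).1
  have hlmono : ∀ ε, StrictMono fun i => (d (2 * i + ε)).1.2.2.1 := by
    intro ε
    refine strictMono_nat_of_lt_succ fun i => ?_
    have e1 : 2 * (i + 1) + ε = (2 * i + ε) + 2 := by ring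
    show (d (2 * i + ε)).1.2.2.1 < (d (2 * (i + 1) + ε)).1.2.2.1
    rw [e1, hd]
    exact h2 _ _
  have hlim : ∀ ε : ℕ, ∃ H : Fin K → ℕ → ℕ, ∀ i, H ∈ (d (2 * i + ε)).1.1 := by
    intro ε
    obtain ⟨H, hH⟩ := limit (fun i => (d (2 * i + ε)).1.2.1) (fun i => (d (2 * i + ε)).1.2.2.1)
      (hlmono ε) (fun i => (d (2 * i + ε)).2.2.2.1
        (hanti ε i (i + 1) (Nat.le_succ i) (d (2 * (i + 1) + ε)).2.2.1))
    refine ⟨H, fun i => (d (2 * i + ε)).2.1 H fun l => ?_⟩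
    refine ⟨(d (2 * (i + l) + ε)).1.2.1,
      hanti ε i (i + l) (Nat.le_add_right i l) (d (2 * (i + l) + ε)).2.2.1, fun k n hn => ?_⟩
    refine (hH (i + l) k n ?_).symm
    have h3 := (hlmono ε).id_le (i + l)
    simp only [id] at h3
    show n < (d (2 * (i + l) + ε)).1.2.2.1
    omega
  have hmiss : ∀ (ε : ℕ) (H : Fin K → ℕ → ℕ), (∀ i, H ∈ (d (2 * i + ε)).1.1) →
      ∀ i a, m (2 * i + ε) ≤ a → a < m (2 * i + ε + 1) → a ∉ W H := by
    intro ε H hH i a ha1 ha2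
    exact (hsub ε i (hH (i + 1))).2 a ha1 ha2
  obtain ⟨H0, hH0⟩ := hlim 0
  obtain ⟨H1, hH1⟩ := hlim 1
  refine hW H0 H1 ((finite_Iio (m 0)).subset fun a ha => ?_)
  by_contra hcon2
  have hcon3 : m 0 ≤ a := not_lt.1 hcon2
  have hex : ∃ j, a < m (j + 1) := by
    have hgrow : ∀ j, j ≤ m (j + 1) := by
      intro j
      induction j with
      | zero => exact Nat.zero_le _
      | succ j ih => exact Nat.succ_le_of_lt (ih.trans_lt (hm2 j))
    exact ⟨a + 1, by have := hgrow (a + 1); omega⟩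
  obtain ⟨j, hj, hmin⟩ : ∃ j, a < m (j + 1) ∧ ∀ i < j, ¬ a < m (i + 1) :=
    ⟨Nat.find hex, Nat.find_spec hex, fun i hi => Nat.find_min hex hi⟩
  have hja : m j ≤ a := by
    rcases Nat.eq_zero_or_pos j with rfl | hpos
    · exact hcon3
    · have := hmin (j - 1) (by omega)
      rw [Nat.sub_add_cancel hpos] at this
      exact not_lt.1 this
  rcases Nat.even_or_odd' j with ⟨i, rfl | rfl⟩
  · exact hmiss 0 H0 hH0 i a hja hj ha.1
  · exact hmiss 1 H1 hH1 i a hja hj ha.2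

end Pool.Agent.helper56.CI
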